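import Pool.Graph.R_seed8.H494R3.GT.Spec
import Pool.Agent.KS6_80.GT.Fin

set_option autoImplicit false

/-!
# Sums of squares fail next to every box space with geometric property (T)

`withGraph X H d hd` is the box space with the vertex sets of `X` and the graphs `H i` (degrees at
most `d`). `LargeComponents X` says that the components of the `X_i` have unbounded size.

1. (dichotomy) The components of `X` have bounded size if and only if for every box space obtained
   from `X` by adding edges inside the components the element `Δ² - cΔ` is a sum of squares for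
   some `c > 0`.
2. For every box space `X` with geometric property (T) and components of unbounded size, and every
   function `h` tending to infinity, one can add at most `h i` edges inside the components of `X_i`
   (and degrees grow by at most two) so that the new box space has geometric property (T), whereas
   `ΔTΔ - cΔ` is a sum of squares for no `c > 0` and no `T` in the algebraic Roe algebra (`T = 1` is
   the criterion of the question; polynomials `T` in `Δ` give all `f(Δ)`, `f(0) = 0 > f'(0)`).
3. There are box spaces of connected graphs with geometric property (T), so the criterion of the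
   question fails.
-/

open Pool.Agent.H494R3.GT Pool.Agent.KS6_80.GT

theorem Pool.Agent.Results.MP_99d66e_al.EveryBoxSpace.result :
    (∀ X : BoxSpace, ¬ LargeComponents X ↔
      ∀ (H : ∀ i, SimpleGraph (X.V i)) (d : ℕ) (hd : ∀ i (a : X.V i), {b | (H i).Adj a b}.ncard ≤ d),
        (∀ i, X.G i ≤ H i) →
        (∀ i (a b : X.V i), (H i).Reachable a b → (X.G i).Reachable a b) →
        ∀ D : (withGraph X H d hd).Roe, (withGraph X H d hd).IsLaplacian D →
          ∃ c : ℝ, 0 < c ∧ (withGraph X H d hd).IsSOS (D * D - (c : ℂ) • D)) ∧
    (∀ (X : BoxSpace) (D : X.Roe), X.IsLaplacian D → X.GeometricT D → LargeComponents X →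
      ∀ h : ℕ → ℕ, Filter.Tendsto h Filter.atTop Filter.atTop →
        ∃ (H : ∀ i, SimpleGraph (X.V i))
          (hd : ∀ i (a : X.V i), {b | (H i).Adj a b}.ncard ≤ X.deg + 2),
          (∀ i, X.G i ≤ H i) ∧
          (∀ i (a b : X.V i), (H i).Reachable a b → (X.G i).Reachable a b) ∧
          (∀ i, ((H i).edgeSet \ (X.G i).edgeSet).ncard ≤ h i) ∧
          ∃ D' : (withGraph X H (X.deg + 2) hd).Roe,
            (withGraph X H (X.deg + 2) hd).IsLaplacian D' ∧
            (withGraph X H (X.deg + 2) hd).GeometricT D' ∧
            ∀ (T : (withGraph X H (X.deg + 2) hd).Roe) (c : ℝ), 0 < c →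
              ¬ (withGraph X H (X.deg + 2) hd).IsSOS (D' * T * D' - (c : ℂ) • D')) ∧
    (∃ (X : BoxSpace) (D : X.Roe), (∀ i, (X.G i).Connected) ∧ X.IsLaplacian D ∧
      X.GeometricT D) := by
  refine ⟨?_, ?_, ⟨BX, Dx, BX_connected, Dx_isLaplacian, geomT⟩⟩
  · intro X
    constructor
    · intro hX H d hd hle hr D hD
      have hX' : ¬ LargeComponents (withGraph X H d hd) := by
        intro hcon
        apply hX
        intro M
        obtain ⟨i, a, ha⟩ := hcon M
        refine ⟨i, a, ha.trans ?_⟩
        have := X.finite i
        exact Set.ncard_le_ncard (fun b hb => hr i a b hb) (Set.toFinite _)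
      exact sos_of_bounded (withGraph X H d hd) hX' D hD
    · intro hall hX
      obtain ⟨I⟩ := exists_invs_box X
      obtain ⟨c, hc, n, ξ, hξ⟩ := hall X.G X.deg X.deg_le (fun i => le_rfl) (fun i a b h => h)
        I.lap I.isLaplacian
      have hgap : Gap X.graph I.lap := gap_of_sos I hc (ξ := ξ) hξ
      obtain ⟨H, hd, hle, hr, _, D', hD', _, hno⟩ := path_theorem X hX I.lap I.isLaplacian hgap id
        Filter.tendsto_id
      obtain ⟨c', hc', n', ξ', hξ'⟩ := hall H (X.deg + 2) hd hle hr D' hD'
      refine hno 1 c' hc' ⟨n', ξ', ?_⟩
      rw [mul_one]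
      exact hξ'
  · intro X D hD hT hX h hh
    obtain ⟨H, hd, hle, hr, hnew, D', hD', hT', hno⟩ := path_theorem X hX D hD hT h hh
    exact ⟨H, hd, hle, hr, hnew, D', hD', hT', fun T c hc hsos => hno T c hc hsos⟩
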